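import Pool.Agent.R559.DualPoly

set_option autoImplicit false

/-!
# Polynomial dual bounds for a single monotone polynomial inequality

`f x = ∑ h, a h * ∏ j ∈ H h, x j ^ d h j`. For every set `Y` of maximal feasible vectors of
`f x ≤ t` in an integer box the number of minimal infeasible vectors which are minimal not below `Y`
is at most `3 (n + 1) ^ 2 * |H| ^ 3 * (|Y| + 1) ^ 7`. The bound does not depend on the
coefficients, on `t`, on the box and on the exponents.

Proof. After moving to the corner of `Y`, the value `f x` is a sum of nonnegative masses over the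
points `z` below `x` (mixed differences). By induction on `|Y|` an averaging argument bounds the
number of the `x` whose own mass is small. If the own mass of `x` in one monomial is large, then
either the monomial does not increase fast at `x` in some direction, and then the mass of the fibre
below `x` is large and is below a point of `Y`, or the monomial increases fast in all directions,
and then the logarithm of the monomial is a separable function with big steps.
-/

namespace Pool.Agent.Results.MP_51bff2_lc.PolynomialDualBound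

/-- the data of a monotone polynomial inequality in `n` variables with `r` monomials -/
structure Ineq (n r : ℕ) where
  /-- the multiset of sets of variables -/
  H : Fin r → Finset (Fin n)
  H_nonempty : ∀ h, (H h).Nonempty
  /-- the coefficients -/
  a : Fin r → ℝ
  a_pos : ∀ h, 0 < a h
  /-- the exponents -/
  d : Fin r → Fin n → ℕ
  d_pos : ∀ h, ∀ j ∈ H h, 1 ≤ d h j
  /-- the right hand side -/
  t : ℝ
  t_pos : 0 < t
  /-- the upper corner of the box -/
  c : Fin n → ℕ

/-- the polynomial -/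
noncomputable def Ineq.f {n r : ℕ} (I : Ineq n r) (x : Fin n → ℕ) : ℝ :=
  ∑ h, I.a h * ∏ j ∈ I.H h, (x j : ℝ) ^ I.d h j

/-- the maximal feasible vectors in the box -/
def Ineq.F {n r : ℕ} (I : Ineq n r) : Set (Fin n → ℕ) :=
  {x | x ≤ I.c ∧ I.f x ≤ I.t ∧
    ∀ j, ¬ (x + Pi.single j 1 ≤ I.c) ∨ I.t < I.f (x + Pi.single j 1)}

/-- the minimal vectors of the box which are not below a vector of `A` -/
def Ineq.dual {n r : ℕ} (I : Ineq n r) (A : Set (Fin n → ℕ)) : Set (Fin n → ℕ) :=
  {x | Minimal (fun x => x ≤ I.c ∧ ∀ a ∈ A, ¬ x ≤ a) x}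

open Pool.Agent.R559.Dual Finset

variable {n r : ℕ} (I : Ineq n r)

/-- the factors -/
noncomputable def fac (h : Fin r) (j : Fin n) : ℕ → ℝ := fun v =>
  if j ∈ I.H h then (v : ℝ) ^ I.d h j else 1

theorem fac_fac (h : Fin r) (j : Fin n) : Fac (fac I h j) := by
  unfold fac
  by_cases hj : j ∈ I.H h
  · simp only [hj, if_true]
    exact Fac.pow _ (I.d_pos h j hj)
  · simp only [hj, if_false]
    exact Fac.one

theorem f_eq (x : Fin n → ℕ) : I.f x = SP I.a (fac I) x := by
  unfold Ineq.f SP fac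
  refine sum_congr rfl fun h _ => ?_
  congr 1
  rw [← prod_filter]
  congr 1
  ext j
  simp

theorem f_mono {x y : Fin n → ℕ} (hxy : x ≤ y) : I.f x ≤ I.f y := by
  unfold Ineq.f
  refine sum_le_sum fun h _ => mul_le_mul_of_nonneg_left
    (prod_le_prod (fun j _ => by positivity) fun j _ => ?_) (I.a_pos h).le
  have h1 : (x j : ℝ) ≤ y j := by exact_mod_cast hxy j
  exact pow_le_pow_left₀ (Nat.cast_nonneg _) h1 _

theorem f_zero : I.f 0 = 0 := by
  unfold Ineq.f
  refine sum_eq_zero fun h _ => ?_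
  obtain ⟨j, hj⟩ := I.H_nonempty h
  rw [prod_eq_zero hj, mul_zero]
  have := I.d_pos h j hj
  simp
  omega

/-- every feasible vector is below a maximal feasible vector -/
theorem exists_max {x : Fin n → ℕ} (hx : x ≤ I.c) (hf : I.f x ≤ I.t) : ∃ y ∈ I.F, x ≤ y := by
  classical
  set S := (Finset.Icc x I.c).filter fun y => I.f y ≤ I.t with hS
  have hne : S.Nonempty := ⟨x, mem_filter.2 ⟨Finset.mem_Icc.2 ⟨le_rfl, hx⟩, hf⟩⟩
  obtain ⟨y, hy, hmax⟩ := exists_max_image S (fun y => ∑ j, y j) hne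
  obtain ⟨h1, h2⟩ := mem_filter.1 hy
  obtain ⟨h3, h4⟩ := Finset.mem_Icc.1 h1
  refine ⟨y, ⟨h4, h2, fun j => ?_⟩, h3⟩
  by_contra hcon
  push Not at hcon
  obtain ⟨h5, h6⟩ := hcon
  have h7 : y ≤ y + Pi.single j 1 := le_self_add
  have h8 := hmax (y + Pi.single j 1)
    (mem_filter.2 ⟨Finset.mem_Icc.2 ⟨h3.trans h7, h5⟩, h6⟩)
  simp [sum_add_distrib] at h8

theorem toMin {A : Set (Fin n → ℕ)} {x : Fin n → ℕ} (hx : x ∈ I.dual A) :
    Minimal (fun x => x ≤ I.c ∧ ∀ a ∈ A, ¬ x ≤ a) x := hx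

theorem dual_infeasible {x : Fin n → ℕ} (hx : x ∈ I.dual I.F) : I.t < I.f x := by
  by_contra hcon
  push Not at hcon
  obtain ⟨y, hy, hxy⟩ := exists_max I (toMin I hx).prop.1 hcon
  exact (toMin I hx).prop.2 y hy hxy

theorem dual_pair (Y : Finset (Fin n → ℕ)) (X : Finset (Fin n → ℕ))
    (hX : ∀ x ∈ X, x ∈ I.dual (Y : Set (Fin n → ℕ))) : Pair 0 X Y := by
  refine ⟨fun x _ => fun j => Nat.zero_le _, fun x _ => fun j => Nat.zero_le _, ?_, ?_⟩
  · intro x hx y hy
    exact (toMin I (hX x hx)).prop.2 y (mem_coe.2 hy)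
  · intro x hx j hj
    have hmin := toMin I (hX x hx)
    have h0 : 0 < x j := hj
    set x' : Fin n → ℕ := Function.update x j (x j - 1) with hx'
    have hle : x' ≤ x := by
      intro i
      by_cases hi : i = j
      · subst hi; simp [hx']
      · simp [hx', hi]
    have hnle : ¬ x ≤ x' := by
      intro h
      have := h j
      simp [hx'] at this
      omega
    by_contra hcon
    push Not at hcon
    apply hnle
    refine hmin.le_of_le ⟨hle.trans hmin.prop.1, fun y hy hxy => ?_⟩ hle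
    have h1 : ∀ i, i ≠ j → x i ≤ y i := by
      intro i hi
      have := hxy i
      simpa [hx', hi] using this
    have h2 := hcon y (mem_coe.1 hy) h1
    have h3 := hxy j
    simp [hx'] at h3
    omega

/-- **Polynomial dual bound.** -/
theorem result (n r : ℕ) (I : Ineq n r) (Y : Finset (Fin n → ℕ)) (hY : (Y : Set (Fin n → ℕ)) ⊆ I.F) :
    (I.dual (Y : Set (Fin n → ℕ)) ∩ I.dual I.F).encard ≤
      ((3 * (n + 1) ^ 2 * r ^ 3 * (Y.card + 1) ^ 7 : ℕ) : ℕ∞) := by
  classical
  set S := I.dual (Y : Set (Fin n → ℕ)) ∩ I.dual I.F with hS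
  have hfin : S.Finite := (Set.finite_Iic I.c).subset fun x hx => (toMin I hx.1).prop.1
  set X := hfin.toFinset with hX
  have hmem : ∀ x, x ∈ X ↔ x ∈ S := fun x => hfin.mem_toFinset
  rw [hfin.encard_eq_coe_toFinset_card]
  have hX1 : ∀ x ∈ X, x ∈ I.dual (Y : Set (Fin n → ℕ)) := fun x hx => ((hmem x).1 hx).1
  have hXt : ∀ x ∈ X, I.t < I.f x := fun x hx => dual_infeasible I ((hmem x).1 hx).2
  have goal : X.card ≤ 3 * (n + 1) ^ 2 * r ^ 3 * (Y.card + 1) ^ 7 := by
    rcases X.eq_empty_or_nonempty with h0 | ⟨x₀, hx₀⟩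
    · rw [h0]; simp
    have hP := dual_pair I Y X hX1
    have hYne : Y.Nonempty := by
      by_contra hcon
      rw [not_nonempty_iff_eq_empty] at hcon
      have h1 : x₀ ≤ 0 := (toMin I (hX1 x₀ hx₀)).le_of_le ⟨fun j => Nat.zero_le _, by rw [hcon]; simp⟩
        fun j => Nat.zero_le _
      have h2 := hXt x₀ hx₀
      have h3 := f_mono I h1
      rw [f_zero] at h3
      have := I.t_pos
      linarith
    have hr : 1 ≤ r := by
      by_contra hcon
      have hr0 : r = 0 := by omega
      subst hr0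
      have h2 := hXt x₀ hx₀
      unfold Ineq.f at h2
      simp at h2
      have := I.t_pos
      linarith
    have hb := dual_SP I.a (fun h => (I.a_pos h).le) (fac I) (fac_fac I) I.t I.c 0 X Y hP hYne
      (fun x hx => ⟨by rw [← f_eq]; exact hXt x hx, (toMin I (hX1 x hx)).prop.1⟩)
      (fun y hy => ⟨by rw [← f_eq]; exact (hY (mem_coe.2 hy)).2.1, (hY (mem_coe.2 hy)).1⟩)
    rw [Fintype.card_fin, Fintype.card_fin] at hb
    refine hb.trans ?_
    unfold C0
    set m := Y.card + 1 with hm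
    have hm1 : 1 ≤ m := by omega
    have e1 : Y.card ^ 3 ≤ m ^ 3 := Nat.pow_le_pow_left (by omega) 3
    have e2 : n + r * (n * (2 * m ^ 3 * r ^ 2) + ((n + 1) ^ 2 + n) * m ^ 4) ≤
        3 * (n + 1) ^ 2 * r ^ 3 * m ^ 4 := by
      have a1 : n ≤ n * (r ^ 3 * m ^ 4) := Nat.le_mul_of_pos_right _ (by positivity)
      have a2 : n * (2 * m ^ 3 * r ^ 2) * r ≤ 2 * n * (r ^ 3 * m ^ 4) := by
        have : n * (2 * m ^ 3 * r ^ 2) * r = 2 * n * (r ^ 3 * m ^ 3) := by ring
        rw [this]
        have h3 : m ^ 3 ≤ m ^ 4 := Nat.pow_le_pow_right hm1 (by norm_num)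
        gcongr
      have a3 : r * (((n + 1) ^ 2 + n) * m ^ 4) ≤ ((n + 1) ^ 2 + n) * (r ^ 3 * m ^ 4) := by
        have : r * (((n + 1) ^ 2 + n) * m ^ 4) = ((n + 1) ^ 2 + n) * (r ^ 1 * m ^ 4) := by ring
        rw [this]
        have h3 : r ^ 1 ≤ r ^ 3 := Nat.pow_le_pow_right hr (by norm_num)
        gcongr
      have a4 : n + 2 * n + ((n + 1) ^ 2 + n) ≤ 3 * (n + 1) ^ 2 := by nlinarith
      calc n + r * (n * (2 * m ^ 3 * r ^ 2) + ((n + 1) ^ 2 + n) * m ^ 4)
          = n + n * (2 * m ^ 3 * r ^ 2) * r + r * (((n + 1) ^ 2 + n) * m ^ 4) := by ring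
        _ ≤ n * (r ^ 3 * m ^ 4) + 2 * n * (r ^ 3 * m ^ 4) +
            ((n + 1) ^ 2 + n) * (r ^ 3 * m ^ 4) := by gcongr
        _ = (n + 2 * n + ((n + 1) ^ 2 + n)) * (r ^ 3 * m ^ 4) := by ring
        _ ≤ 3 * (n + 1) ^ 2 * (r ^ 3 * m ^ 4) := Nat.mul_le_mul_right _ a4
        _ = _ := by ring
    calc _ ≤ 3 * (n + 1) ^ 2 * r ^ 3 * m ^ 4 * m ^ 3 := Nat.mul_le_mul e2 e1
      _ = _ := by ring
  exact_mod_cast goal

end Pool.Agent.Results.MP_51bff2_lc.PolynomialDualBound
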